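import Pool.Agent.Helper78.HL.Dense

/-!
# Boxes for any finite number of trees

`Grid κ U R ι d`: every family of at most `κ` names (over the poset `R`) of `d`-dimensional
colorings of nodes has names (over `R × U ^ d`) of limit colors with the grid property.  The
induction on `d` treats the first coordinate with a generic filter over `R × U` and applies the
induction hypothesis over `R` (for the colorings with the first coordinate fixed) and over
`R × U` (for the limit colorings of nodes).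
-/

set_option autoImplicit false

open Cardinal Set Helper2.HB Pool.Agent.Helper58.HL

namespace Pool.Agent.Helper78.HL

/-- a name of a function with values in `ι` (several values are allowed) -/
structure IsName {R A ι : Type} [Preorder R] (F : R → A → ι → Prop) : Prop where
  mono : ∀ ρ ρ' a i, ρ ≤ ρ' → F ρ a i → F ρ' a i
  dense : ∀ ρ a, ∃ ρ', ρ ≤ ρ' ∧ ∃ i, F ρ' a i

/-- the grid property in dimension `d` over the poset `R` -/
def Grid (κ : Cardinal.{0}) (U R ι : Type) [Preorder U] [Preorder R] (d : ℕ) : Prop :=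
  ∀ C : Type, #C ≤ κ → ∀ F : R → C × (Fin d → U) → ι → Prop, IsName F →
    ∃ G : R × (Fin d → U) → C → ι → Prop, IsName G ∧
      ∀ (J : Fin d → Type) (S : Type), (∀ l, #(J l) < κ) → #S < κ →
        ∀ (ρ : R) (p : ∀ l, J l → U) (cs : S → C) (i : S → (∀ l, J l) → ι),
          (∀ s f, G (ρ, fun l => p l (f l)) (cs s) (i s f)) →
          ∃ ρ', ρ ≤ ρ' ∧ ∃ x : ∀ l, J l → U, (∀ l j, p l j ≤ x l j) ∧
            ∀ s f, F ρ' (cs s, fun l => x l (f l)) (i s f)

variable {κ : Cardinal.{0}}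

theorem mk_pi_fin_lt (hκ : ℵ₀ ≤ κ) (d : ℕ) (J : Fin d → Type) (hJ : ∀ l, #(J l) < κ) :
    #(∀ l, J l) < κ := by
  induction d with
  | zero =>
    have : #(∀ l : Fin 0, J l) ≤ 1 := Cardinal.le_one_iff_subsingleton.2 inferInstance
    exact this.trans_lt (lt_of_lt_of_le one_lt_aleph0 hκ)
  | succ d ih =>
    have h1 : #(∀ l, J l) = #(J 0 × ∀ l : Fin d, J l.succ) :=
      Cardinal.mk_congr (Fin.consEquiv J).symm
    rw [h1, Cardinal.mk_prod]
    simp only [Cardinal.lift_id]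
    exact Cardinal.mul_lt_of_lt hκ (hJ 0) (ih _ fun l => hJ l.succ)

theorem mk_pi_fin_le (hκ : ℵ₀ ≤ κ) (d : ℕ) (J : Fin d → Type) (hJ : ∀ l, #(J l) ≤ κ) :
    #(∀ l, J l) ≤ κ := by
  induction d with
  | zero =>
    have : #(∀ l : Fin 0, J l) ≤ 1 := Cardinal.le_one_iff_subsingleton.2 inferInstance
    exact this.trans (lt_of_lt_of_le one_lt_aleph0 hκ).le
  | succ d ih =>
    have h1 : #(∀ l, J l) = #(J 0 × ∀ l : Fin d, J l.succ) :=
      Cardinal.mk_congr (Fin.consEquiv J).symm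
    rw [h1, Cardinal.mk_prod]
    simp only [Cardinal.lift_id]
    exact (mul_le_mul' (hJ 0) (ih _ fun l => hJ l.succ)).trans (Cardinal.mul_eq_self hκ).le

/-- the posets over which the induction runs -/
def Good (κ : Cardinal.{0}) (U R : Type) [Preorder U] [Preorder R] : Prop :=
  Closed κ R ∧ ∃ φ : U → R × U, (∀ u u', u ≤ u' ↔ φ u ≤ φ u') ∧ ∀ w, ∃ u, w ≤ φ u

theorem Good.prod {U R : Type} [Preorder U] [Preorder R] (hR : Good κ U R) (hU : Closed κ U)
    (hψ : ∃ ψ : U → U × U, (∀ u u', u ≤ u' ↔ ψ u ≤ ψ u') ∧ ∀ w, ∃ u, w ≤ ψ u) :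
    Good κ U (R × U) := by
  obtain ⟨hc, φ, hφ1, hφ2⟩ := hR
  obtain ⟨ψ, hψ1, hψ2⟩ := hψ
  refine ⟨hc.prod hU, fun u => (φ (ψ u).1, (ψ u).2), fun u u' => ?_, fun w => ?_⟩
  · constructor
    · intro h
      have h1 := (hψ1 _ _).1 h
      exact ⟨(hφ1 _ _).1 h1.1, h1.2⟩
    · intro h
      exact (hψ1 _ _).2 ⟨(hφ1 _ _).2 h.1, h.2⟩
  · obtain ⟨v, hv⟩ := hφ2 w.1
    obtain ⟨u, hu⟩ := hψ2 (v, w.2)
    exact ⟨u, ⟨hv.trans ((hφ1 _ _).1 hu.1), hu.2⟩⟩

theorem Good.punit {U : Type} [Preorder U] : Good κ U PUnit.{1} := by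
  refine ⟨fun C _ _ _ => ⟨PUnit.unit, fun _ _ => le_rfl⟩, fun u => (PUnit.unit, u),
    fun u u' => ?_, fun w => ⟨w.2, ?_⟩⟩
  · simp
  · exact ⟨le_rfl, le_rfl⟩

theorem grid_zero (U R ι : Type) [Preorder U] [Preorder R] : Grid κ U R ι 0 := by
  intro C _ F hF
  refine ⟨fun w c i => F w.1 (c, w.2) i, ⟨?_, ?_⟩, ?_⟩
  · intro w w' c i hw h
    have h1 : w'.2 = w.2 := Subsingleton.elim _ _
    rw [h1]
    exact hF.mono _ _ _ _ hw.1 h
  · intro w c
    obtain ⟨ρ', h1, i, h2⟩ := hF.dense w.1 (c, w.2)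
    exact ⟨(ρ', w.2), ⟨h1, le_rfl⟩, i, h2⟩
  · intro J S _ _ ρ p cs i h
    exact ⟨ρ, le_rfl, p, fun _ _ => le_rfl, h⟩

section step

variable {U : Type} [Preorder U]

theorem grid_succ (hκ : κ.IsRegular) (hU : Closed κ U) (hUc : #U ≤ κ)
    (hU2 : ∃ ψ : U → U × U, (∀ u u', u ≤ u' ↔ ψ u ≤ ψ u') ∧ ∀ w, ∃ u, w ≤ ψ u)
    (hE : GenCompact κ U) (len : U → κ.ord.ToType) (hlen : ∀ u u', u ≤ u' → len u ≤ len u')
    (hlen' : ∀ u a, ∃ u', u ≤ u' ∧ a < len u') {ι : Type} (hι : #ι < κ) (d : ℕ)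
    (IH : ∀ (R : Type) [Preorder R], Good κ U R → Grid κ U R ι d)
    (R : Type) [Preorder R] (hR : Good κ U R) : Grid κ U R ι (d + 1) := by
  classical
  intro C hC F hF
  have hκ0 := hκ.aleph0_le
  have hmul : ∀ {A B : Type}, #A ≤ κ → #B ≤ κ → #(A × B) ≤ κ := by
    intro A B hA hB
    rw [Cardinal.mk_prod]
    simp only [Cardinal.lift_id]
    exact (mul_le_mul' hA hB).trans (Cardinal.mul_eq_self hκ0).le
  have hmul' : ∀ {A B : Type}, #A < κ → #B < κ → #(A × B) < κ := by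
    intro A B hA hB
    rw [Cardinal.mk_prod]
    simp only [Cardinal.lift_id]
    exact Cardinal.mul_lt_of_lt hκ0 hA hB
  -- the colorings with the first coordinate fixed
  let FA : R → (C × U) × (Fin d → U) → ι → Prop := fun ρ z i =>
    F ρ (z.1.1, Fin.cons z.1.2 z.2) i
  have hFA : IsName FA := ⟨fun ρ ρ' a i h h' => hF.mono _ _ _ _ h h', fun ρ a => hF.dense _ _⟩
  obtain ⟨GA, hGA, gA⟩ := IH R hR (C × U) (hmul hC hUc) FA hFA
  -- enumerations
  have hC' : #C ≤ #κ.ord.ToType := by rwa [Cardinal.mk_ord_toType]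
  have hU' : #U ≤ #κ.ord.ToType := by rwa [Cardinal.mk_ord_toType]
  obtain ⟨eC⟩ := hC'
  obtain ⟨eU⟩ := hU'
  have hIio : ∀ ζ : κ.ord.ToType, #(Iio ζ) < κ := fun ζ => by
    have := hK_toType (κ := κ) ζ
    rwa [Cardinal.mk_ord_toType] at this
  have hCI : ∀ ξ : κ.ord.ToType, #{c // eC c < ξ} < κ := fun ξ =>
    lt_of_le_of_lt (Cardinal.mk_le_of_injective
      (f := fun c : {c // eC c < ξ} => (⟨eC c.1, c.2⟩ : Iio ξ)) fun a b h =>
        Subtype.ext (eC.injective (congrArg Subtype.val h))) (hIio ξ)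
  have hUI : ∀ ξ : κ.ord.ToType, #{u // eU u < ξ} < κ := fun ξ =>
    lt_of_le_of_lt (Cardinal.mk_le_of_injective
      (f := fun c : {c // eU c < ξ} => (⟨eU c.1, c.2⟩ : Iio ξ)) fun a b h =>
        Subtype.ext (eU.injective (congrArg Subtype.val h))) (hIio ξ)
  -- sections
  have hsec : ∀ w : R × U, ∃ (ρ' : R) (s : Fin d → U → U), w.1 ≤ ρ' ∧ (∀ l u, u ≤ s l u) ∧
      ∀ c, eC c < len w.2 → ∀ u : Fin d → U, (∀ l, eU (u l) < len w.2) →
        ∃ i, GA (ρ', fun l => s l (u l)) (c, w.2) i := by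
    intro w
    set ξ := len w.2 with hξ
    let UI : Type := {u // eU u < ξ}
    obtain ⟨q, hq, hall⟩ := (hR.1.prod (hU.pi (J := Fin d × UI))).meet hκ0
      (ι := {c // eC c < ξ} × (Fin d → UI))
      (hmul' (hCI ξ) (mk_pi_fin_lt hκ0 d _ fun _ => hUI ξ))
      (fun z q => ∃ i, GA (q.1, fun l => q.2 (l, z.2 l)) (z.1.1, w.2) i)
      (by
        rintro z q q' hqq ⟨i, hi⟩
        exact ⟨i, hGA.mono _ _ _ _ ⟨hqq.1, fun l => hqq.2 _⟩ hi⟩)
      (w.1, fun z => z.2.1)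
      (by
        intro z q hq
        obtain ⟨q', hq', i, hi⟩ := hGA.dense (q.1, fun l => q.2 (l, z.2 l)) (z.1.1, w.2)
        refine ⟨(q'.1, fun y => if y.2 = z.2 y.1 then q'.2 y.1 else q.2 y), ⟨hq'.1, ?_⟩, i, ?_⟩
        · rintro ⟨l, v⟩
          by_cases h : v = z.2 l
          · subst h
            simp only [if_true]
            exact hq'.2 l
          · simp only [if_neg h]
            exact le_rfl
        · simpa using hi)
    refine ⟨q.1, fun l u => if h : eU u < ξ then q.2 (l, ⟨u, h⟩) else u, hq.1, ?_, ?_⟩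
    · intro l u
      by_cases h : eU u < ξ
      · simp only [dif_pos h]
        exact hq.2 (l, ⟨u, h⟩)
      · simp only [dif_neg h]
        exact le_rfl
    · intro c hc u hu
      obtain ⟨i, hi⟩ := hall (⟨c, hc⟩, fun l => ⟨u l, hu l⟩)
      refine ⟨i, ?_⟩
      have : (fun l => if h : eU (u l) < ξ then q.2 (l, ⟨u l, h⟩) else u l) =
          fun l => q.2 (l, ⟨u l, hu l⟩) := by
        funext l
        rw [dif_pos (hu l)]
      rw [this]
      exact hi
  choose ρw sw hw1 hw2 hw3 using hsec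
  choose iw hiw using hw3
  -- the generic filter over `R × U`
  let CS : (C × (Fin d → U)) × ι → Set (R × U) := fun z =>
    {w | ∃ (hc : eC z.1.1 < len w.2) (hu : ∀ l, eU (z.1.2 l) < len w.2),
      iw w z.1.1 hc z.1.2 hu = z.2}
  have hRU : GenCompact κ (R × U) := by
    obtain ⟨-, φ, hφ1, hφ2⟩ := hR
    exact genCompact_of_dense hE φ hφ1 hφ2
  obtain ⟨E, hEf, hEd⟩ := hRU.exists_of_le (I := (C × (Fin d → U)) × ι)
    (hmul (hmul hC (mk_pi_fin_le hκ0 d _ fun _ => hUc)) hι.le) CS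
  let FS : R × U → C × (Fin d → U) → ι → Prop := fun w z i => CS (z, i) ∈ E w
  have hcRU : Closed κ (R × U) := hR.1.prod hU
  have hFS : IsName FS := by
    refine ⟨fun w w' z i hw h => hEf.mono _ _ hw h, fun w z => ?_⟩
    obtain ⟨b, hb⟩ : ∃ b : κ.ord.ToType, eC z.1 ≤ b ∧ ∀ l, eU (z.2 l) ≤ b := by
      have hfin : #(Option (Fin d)) < κ :=
        (Cardinal.lt_aleph0_of_finite _).trans_le hκ0
      obtain ⟨b, hb⟩ := exists_bound hκ hfin
        (fun o : Option (Fin d) => o.elim (eC z.1) fun l => eU (z.2 l))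
      exact ⟨b, hb none, fun l => hb (some l)⟩
    obtain ⟨u', hu', hbu⟩ := hlen' w.2 b
    by_contra hcon
    push Not at hcon
    obtain ⟨q, hq, hall⟩ := hcRU.meet hκ0 hι (fun i w => (CS (z, i))ᶜ ∈ E w)
      (fun i a b hab h => hEf.mono a b hab h) (w.1, u') (by
        intro i a ha
        obtain ⟨b, hb, h | h⟩ := hEd (z, i) a
        · exact absurd h (hcon b (le_trans (le_trans (show w ≤ (w.1, u') from ⟨le_rfl, hu'⟩) ha) hb) i)
        · exact ⟨b, hb, h⟩)
    have := hEf.complete q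
    have := hEf.ne q
    have h1 : (⋂ i, (CS (z, i))ᶜ) ∈ E q := (Filter.cardinal_iInter_mem hι).2 hall
    obtain ⟨v, hv1, hv2⟩ := Filter.nonempty_of_mem (Filter.inter_mem h1 (hEf.cone_mem q))
    have hbv : b < len v.2 := hbu.trans_le (hlen _ _ (le_trans hq.2 hv2.2))
    have hc : eC z.1 < len v.2 := hb.1.trans_lt hbv
    have hu : ∀ l, eU (z.2 l) < len v.2 := fun l => (hb.2 l).trans_lt hbv
    exact mem_iInter.1 hv1 (iw v z.1 hc z.2 hu) ⟨hc, hu, rfl⟩
  obtain ⟨GS, hGS, gS⟩ := IH (R × U) (hR.prod hU hU2) C hC FS hFS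
  -- the limit colors
  refine ⟨fun w c i => GS ((w.1, w.2 0), Fin.tail w.2) c i, ⟨?_, ?_⟩, ?_⟩
  · intro w w' c i hw h
    exact hGS.mono _ _ _ _ ⟨⟨hw.1, hw.2 0⟩, fun l => hw.2 l.succ⟩ h
  · intro w c
    obtain ⟨v, hv, i, hi⟩ := hGS.dense ((w.1, w.2 0), Fin.tail w.2) c
    refine ⟨(v.1.1, Fin.cons v.1.2 v.2), ⟨hv.1.1, fun l => ?_⟩, i, ?_⟩
    · refine Fin.cases ?_ (fun l => ?_) l
      · exact hv.1.2
      · exact hv.2 l
    · simpa using hi
  · intro J S hJ hS ρ p cs i H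
    have hJ' : #(∀ l : Fin d, J l.succ) < κ := mk_pi_fin_lt hκ0 d _ fun l => hJ _
    obtain ⟨q, hq, hall⟩ := (hR.1.prod (hU.pi (J := Σ l : Fin d, J l.succ))).meet hκ0
      (ι := J 0) (hJ 0)
      (fun m q => ∃ x₀, p 0 m ≤ x₀ ∧ ∀ (s : S) (f : ∀ l : Fin d, J l.succ),
        GA (q.1, fun l => q.2 ⟨l, f l⟩) (cs s, x₀) (i s (Fin.cons m f)))
      (by
        rintro m q q' hqq ⟨x₀, h1, h2⟩
        exact ⟨x₀, h1, fun s f => hGA.mono _ _ _ _ ⟨hqq.1, fun l => hqq.2 _⟩ (h2 s f)⟩)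
      (ρ, fun z => p z.1.succ z.2)
      (by
        intro m q hq
        obtain ⟨v, hv, x, hx, hxF⟩ := gS (fun l => J l.succ) S (fun l => hJ _) hS (q.1, p 0 m)
          (fun l j => q.2 ⟨l, j⟩) cs (fun s f => i s (Fin.cons m f)) (by
            intro s f
            have h1 : GS ((ρ, p 0 m), fun l => p l.succ (f l)) (cs s) (i s (Fin.cons m f)) :=
              H s (Fin.cons m f)
            exact hGS.mono ((ρ, p 0 m), fun l => p l.succ (f l)) _ _ _
              ⟨⟨hq.1, le_rfl⟩, fun l => hq.2 ⟨l, f l⟩⟩ h1)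
        have := hEf.complete v
        have := hEf.ne v
        have h1 : (⋂ z : S × (∀ l : Fin d, J l.succ),
            CS ((cs z.1, fun l => x l (z.2 l)), i z.1 (Fin.cons m z.2))) ∈ E v :=
          (Filter.cardinal_iInter_mem (hmul' hS hJ')).2 fun z => hxF z.1 z.2
        obtain ⟨w, hw, hwv⟩ := Filter.nonempty_of_mem (Filter.inter_mem h1 (hEf.cone_mem v))
        refine ⟨(ρw w, fun z => sw w z.1 (x z.1 z.2)), ⟨?_, ?_⟩, w.2, ?_, ?_⟩
        · exact le_trans hv.1 (le_trans hwv.1 (hw1 w))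
        · exact fun z => le_trans (hx z.1 z.2) (hw2 w _ _)
        · exact le_trans hv.2 hwv.2
        · intro s f
          obtain ⟨hc, hu, he⟩ := mem_iInter.1 hw (s, f)
          have h2 := hiw w (cs s) hc (fun l => x l (f l)) hu
          rw [he] at h2
          exact h2)
    choose x₀ hx₀ hGx using hall
    obtain ⟨ρ', hρ', x, hx, hxF⟩ := gA (fun l => J l.succ) (S × J 0) (fun l => hJ _)
      (hmul' hS (hJ 0)) q.1 (fun l j => q.2 ⟨l, j⟩) (fun z => (cs z.1, x₀ z.2))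
      (fun z f => i z.1 (Fin.cons z.2 f)) (fun z f => hGx z.2 z.1 f)
    refine ⟨ρ', le_trans hq.1 hρ', fun l => Fin.cases (motive := fun l => J l → U) x₀ x l, ?_, ?_⟩
    · intro l
      refine Fin.cases ?_ (fun l => ?_) l
      · exact fun m => hx₀ m
      · exact fun j => le_trans (hq.2 ⟨l, j⟩) (hx l j)
    · intro s f
      have h1 := hxF (s, f 0) (Fin.tail f)
      have h2 : (Fin.cons (f 0) (Fin.tail f) : ∀ l, J l) = f := Fin.cons_self_tail f
      have h3 : (fun l => (Fin.cases (motive := fun l => J l → U) x₀ x l : J l → U) (f l)) =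
          (Fin.cons (x₀ (f 0)) (fun l => x l (Fin.tail f l)) : Fin (d + 1) → U) := by
        funext l
        refine Fin.cases ?_ (fun l => ?_) l
        · rfl
        · rfl
      rw [h3]
      simp only [h2] at h1
      exact h1

end step

/-- **Boxes for `d` trees.** -/
theorem exists_boxes_fin (hκ : κ.IsRegular) (hE : GenCompact κ (Node κ.ord.ToType)) (d : ℕ)
    {ι : Type} (hι : #ι < κ) (c : (Fin d → Node κ.ord.ToType) → ι)
    (a : Fin d → Node κ.ord.ToType) :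
    ∃ s, a ≤ s ∧ ∃ i : ι, ∀ J : Fin d → Type, (∀ l, #(J l) < κ) →
      ∀ p : ∀ l, J l → Node κ.ord.ToType, (∀ l j, s l ≤ p l j) →
        ∃ x : ∀ l, J l → Node κ.ord.ToType, (∀ l j, p l j ≤ x l j) ∧
          ∀ f : ∀ l, J l, c (fun l => x l (f l)) = i := by
  classical
  have : NoMaxOrder κ.ord.ToType := Cardinal.noMaxOrder hκ.aleph0_le
  obtain ⟨b, hb⟩ := exists_least hκ
  have hgrid : ∀ d (R : Type) [Preorder R], Good κ (Node κ.ord.ToType) R →
      Grid κ (Node κ.ord.ToType) R ι d := by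
    intro d
    induction d with
    | zero => exact fun R _ _ => grid_zero _ R ι
    | succ d IH =>
      intro R _ hR
      refine grid_succ hκ (closed_node hκ) (Helper39.HL.card_node_le' hκ hE) (exists_pair hκ) hE
        (fun u => u.len) (fun u u' h => h.1) ?_ hι d IH R hR
      intro u a
      obtain ⟨l, hl⟩ := exists_gt (max a u.len)
      refine ⟨nodeOf b hb u.val l, ⟨(le_max_right _ _).trans hl.le, fun η hη => ?_⟩,
        (le_max_left _ _).trans_lt hl⟩
      rw [nodeOf_val _ _ _ _ (hη.trans ((le_max_right _ _).trans_lt hl))]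
  obtain ⟨G, hG, g⟩ := hgrid d PUnit.{1} Good.punit PUnit.{1}
    (le_trans (Cardinal.le_one_iff_subsingleton.2 inferInstance)
      (lt_of_lt_of_le one_lt_aleph0 hκ.aleph0_le).le)
    (fun _ z i => c z.2 = i) ⟨fun _ _ _ _ _ h => h, fun ρ a => ⟨ρ, le_rfl, c a.2, rfl⟩⟩
  obtain ⟨v, hv, i, hi⟩ := hG.dense (PUnit.unit, a) PUnit.unit
  refine ⟨v.2, hv.2, i, fun J hJ p hp => ?_⟩
  obtain ⟨-, -, x, hx, hxc⟩ := g J PUnit.{1} hJ
    (lt_of_le_of_lt (Cardinal.le_one_iff_subsingleton.2 inferInstance)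
      (lt_of_lt_of_le one_lt_aleph0 hκ.aleph0_le))
    PUnit.unit p (fun _ => PUnit.unit) (fun _ _ => i)
    (fun _ f => hG.mono v (PUnit.unit, fun l => p l (f l)) _ _ ⟨le_rfl, fun l => hp l (f l)⟩ hi)
  exact ⟨x, hx, fun f => hxc PUnit.unit f⟩

end Pool.Agent.Helper78.HL
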