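import Pool.Agent.Helper39.HL.Levels

/-!
# Generic compactness along dense embeddings, and pairs of nodes
-/

set_option autoImplicit false

open Cardinal Set Helper2.HB Pool.Agent.Helper58.HL

namespace Pool.Agent.Helper78.HL

variable {κ : Cardinal.{0}}

/-- Generic compactness passes along dense order embeddings. -/
theorem genCompact_of_dense {T R : Type} [Preorder T] [Preorder R] (hT : GenCompact κ T)
    (φ : T → R) (hφ : ∀ u u', u ≤ u' ↔ φ u ≤ φ u') (hd : ∀ ρ, ∃ u, ρ ≤ φ u) :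
    GenCompact κ R := by
  intro C
  obtain ⟨E, hE, hdec⟩ := hT (fun a => φ ⁻¹' C a)
  let E' : R → Filter R := fun ρ => ⨆ u : {u // ρ ≤ φ u}, Filter.map φ (E u.1)
  have hmem : ∀ ρ A, A ∈ E' ρ ↔ ∀ u, ρ ≤ φ u → φ ⁻¹' A ∈ E u := by
    intro ρ A
    simp only [E', Filter.mem_iSup, Filter.mem_map, Subtype.forall]
  refine ⟨E', ⟨?_, ?_, ?_, ?_⟩, ?_⟩
  · intro ρ
    obtain ⟨u, hu⟩ := hd ρ
    have := hE.ne u
    have h1 : Filter.map φ (E u) ≤ E' ρ :=
      le_iSup (fun u : {u // ρ ≤ φ u} => Filter.map φ (E u.1)) ⟨u, hu⟩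
    exact Filter.NeBot.mono inferInstance h1
  · intro ρ
    refine ⟨fun S hS hall => ?_⟩
    rw [hmem]
    intro u hu
    have := hE.complete u
    have h1 : (⋂ s : S, φ ⁻¹' s.1) ∈ E u :=
      (Filter.cardinal_iInter_mem hS).2 fun s => (hmem _ _).1 (hall s.1 s.2) u hu
    refine Filter.mem_of_superset h1 fun x hx => ?_
    exact mem_sInter.2 fun s hs => mem_iInter.1 hx ⟨s, hs⟩
  · intro ρ ρ' hρ A hA
    rw [hmem] at hA ⊢
    exact fun u hu => hA u (hρ.trans hu)
  · intro ρ
    rw [hmem]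
    intro u hu
    refine Filter.mem_of_superset (hE.cone_mem u) fun v hv => ?_
    exact hu.trans ((hφ u v).1 hv)
  · intro a ρ
    obtain ⟨u, hu⟩ := hd ρ
    obtain ⟨u', hu', h⟩ := hdec a u
    refine ⟨φ u', hu.trans ((hφ _ _).1 hu'), ?_⟩
    rcases h with h | h
    · left
      rw [hmem]
      exact fun v hv => hE.mono _ _ ((hφ _ _).2 hv) h
    · right
      rw [hmem]
      exact fun v hv => hE.mono _ _ ((hφ _ _).2 hv) h

/-- A node of pairs is a pair of nodes of the same length; these are dense among all pairs. -/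
theorem exists_pair (hκ : κ.IsRegular) :
    ∃ ψ : Node κ.ord.ToType → Node κ.ord.ToType × Node κ.ord.ToType,
      (∀ u u', u ≤ u' ↔ ψ u ≤ ψ u') ∧ ∀ w, ∃ u, w ≤ ψ u := by
  obtain ⟨b, hb⟩ := exists_least hκ
  have hcard : #κ.ord.ToType = #(κ.ord.ToType × κ.ord.ToType) := by
    rw [Cardinal.mk_prod]
    simp only [Cardinal.lift_id, Cardinal.mk_ord_toType]
    exact (Cardinal.mul_eq_self hκ.aleph0_le).symm
  obtain ⟨e⟩ := Cardinal.eq.1 hcard
  refine ⟨fun u => (nodeOf b hb (fun η => (e (u.val η)).1) u.len,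
    nodeOf b hb (fun η => (e (u.val η)).2) u.len), ?_, ?_⟩
  · intro u u'
    constructor
    · intro h
      refine ⟨⟨h.1, fun η hη => ?_⟩, ⟨h.1, fun η hη => ?_⟩⟩
      · have hη' : η < u.len := hη
        change (nodeOf b hb (fun η => (e (u.val η)).1) u.len).val η =
          (nodeOf b hb (fun η => (e (u'.val η)).1) u'.len).val η
        rw [nodeOf_val _ _ _ _ hη', nodeOf_val _ _ _ _ (hη'.trans_le h.1), h.2 η hη']
      · have hη' : η < u.len := hη
        change (nodeOf b hb (fun η => (e (u.val η)).2) u.len).val η =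
          (nodeOf b hb (fun η => (e (u'.val η)).2) u'.len).val η
        rw [nodeOf_val _ _ _ _ hη', nodeOf_val _ _ _ _ (hη'.trans_le h.1), h.2 η hη']
    · intro h
      have h1 : u.len ≤ u'.len := h.1.1
      refine ⟨h1, fun η hη => ?_⟩
      have h2 : (nodeOf b hb (fun η => (e (u.val η)).1) u.len).val η =
          (nodeOf b hb (fun η => (e (u'.val η)).1) u'.len).val η := h.1.2 η hη
      have h3 : (nodeOf b hb (fun η => (e (u.val η)).2) u.len).val η =
          (nodeOf b hb (fun η => (e (u'.val η)).2) u'.len).val η := h.2.2 η hη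
      rw [nodeOf_val _ _ _ _ hη, nodeOf_val _ _ _ _ (hη.trans_le h1)] at h2 h3
      exact e.injective (Prod.ext h2 h3)
  · intro w
    refine ⟨nodeOf b hb (fun η => e.symm (w.1.val η, w.2.val η)) (max w.1.len w.2.len), ?_⟩
    refine ⟨⟨le_max_left _ _, fun η hη => ?_⟩, ⟨le_max_right _ _, fun η hη => ?_⟩⟩
    · have h1 : η < max w.1.len w.2.len := hη.trans_le (le_max_left _ _)
      change w.1.val η = (nodeOf b hb (fun η => (e ((nodeOf b hb
        (fun η => e.symm (w.1.val η, w.2.val η)) (max w.1.len w.2.len)).val η)).1)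
        (max w.1.len w.2.len)).val η
      rw [nodeOf_val _ _ _ _ h1, nodeOf_val _ _ _ _ h1, Equiv.apply_symm_apply]
    · have h1 : η < max w.1.len w.2.len := hη.trans_le (le_max_right _ _)
      change w.2.val η = (nodeOf b hb (fun η => (e ((nodeOf b hb
        (fun η => e.symm (w.1.val η, w.2.val η)) (max w.1.len w.2.len)).val η)).2)
        (max w.1.len w.2.len)).val η
      rw [nodeOf_val _ _ _ _ h1, nodeOf_val _ _ _ _ h1, Equiv.apply_symm_apply]

end Pool.Agent.Helper78.HL
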