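import Pool.Agent.Helper78.HL.BoxD
import Pool.Agent.Helper39.HL.LevelsD

/-!
# The box property for every finite number of trees
-/

set_option autoImplicit false

open Cardinal Set Helper2.HB Pool.Agent.Helper58.HL

namespace Pool.Agent.Helper78.HL

/-- **Boxes in every finite dimension**, from generic compactness of the full tree. -/
theorem boxProp {κ : Cardinal.{0}} (hκ : κ.IsRegular)
    (hE : GenCompact κ (Node κ.ord.ToType)) (d : ℕ) : Pool.Agent.Helper39.HL.BoxProp κ d := by
  intro ι hι c a
  obtain ⟨s, hs, i, h⟩ := exists_boxes_fin hκ hE d hι c a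
  exact ⟨s, hs, i, h⟩

end Pool.Agent.Helper78.HL
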